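import Mathlib
import Pool.Agent.TH854.KS.K7

open Finset

namespace Pool.Agent.Results.MP_927be3_nt.AtLeastKPlusTwo

/-- The arithmetic `k`-sphere `S_{k,d}(r)` of radius `r` in dimension `d`. -/
def sphere (k d : ℕ) (r : ℝ) : Set (Fin d → ℤ) := {m | ∑ i, |(m i : ℝ)| ^ k = r ^ k}

/-- `N_{k,d}(r) ≍ r^{d-k}`: there are `0 < c ≤ C` and `r₀` with `c r^{d-k} ≤ N_{k,d}(r) ≤ C r^{d-k}`
for all radii `r ≥ r₀`, `r > 0`, with non-empty `S_{k,d}(r)`. -/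
def OrderHolds (k d : ℕ) : Prop :=
  ∃ c C r₀ : ℝ, 0 < c ∧ c ≤ C ∧ ∀ r : ℝ, 0 < r → r₀ ≤ r → (sphere k d r).Nonempty →
    c * r ^ ((d : ℝ) - k) ≤ ((sphere k d r).ncard : ℝ) ∧
      ((sphere k d r).ncard : ℝ) ≤ C * r ^ ((d : ℝ) - k)

/-- For every degree `k ≥ 3` the order of magnitude `N_{k,d}(r) ≍ r^{d-k}` fails in all dimensions
`1 ≤ d ≤ k + 1`. So `d_0(k) ≥ k + 2`. -/
theorem result (k : ℕ) (hk : 3 ≤ k) (d : ℕ) (hd : 1 ≤ d) (h : OrderHolds k d) : k + 2 ≤ d := by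
  obtain ⟨c, C, r₀, hc, _, h⟩ := h
  by_contra hcon
  exact Pool.Agent.TH854.KS.fails_low hk hd (by omega) ⟨c, C, r₀, hc, h⟩

end Pool.Agent.Results.MP_927be3_nt.AtLeastKPlusTwo
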