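import Mathlib
import Pool.Agent.TH854.KS.K7

open Finset

namespace Pool.Agent.Results.MP_927be3_nt.LocalThresholds

/-- The arithmetic `k`-sphere `S_{k,d}(r)` of radius `r` in dimension `d`. -/
def sphere (k d : ℕ) (r : ℝ) : Set (Fin d → ℤ) := {m | ∑ i, |(m i : ℝ)| ^ k = r ^ k}

/-- `N_{k,d}(r) ≍ r^{d-k}`: there are `0 < c ≤ C` and `r₀` with `c r^{d-k} ≤ N_{k,d}(r) ≤ C r^{d-k}`
for all radii `r ≥ r₀`, `r > 0`, with non-empty `S_{k,d}(r)`. -/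
def OrderHolds (k d : ℕ) : Prop :=
  ∃ c C r₀ : ℝ, 0 < c ∧ c ≤ C ∧ ∀ r : ℝ, 0 < r → r₀ ≤ r → (sphere k d r).Nonempty →
    c * r ^ ((d : ℝ) - k) ≤ ((sphere k d r).ncard : ℝ) ∧
      ((sphere k d r).ncard : ℝ) ≤ C * r ^ ((d : ℝ) - k)

/-- Let `k ≥ 3`, and let `d ≥ 1` be a dimension in which `N_{k,d}(r) ≍ r^{d-k}` (for instance
`d = d_0(k)`). Then there is no local obstruction: for every prime power `p^γ` the congruence
`y_1^k + ⋯ + y_d^k ≡ 0 (mod p^γ)` has a solution with not all `y_i` divisible by `p`. Consequently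
`d ≥ p^(τ+1)` whenever `(p - 1) p^τ` divides `k`, `p` prime, and `d ≥ 2^(τ+2)` whenever `2^τ`
divides `k`, `τ ≥ 1`. -/
theorem result (k : ℕ) (hk : 3 ≤ k) (d : ℕ) (hd : 1 ≤ d) (h : OrderHolds k d) :
    (∀ p γ : ℕ, p.Prime → ∃ y : Fin d → ℕ, p ^ γ ∣ ∑ i, y i ^ k ∧ ∃ i, ¬ p ∣ y i) ∧
    (∀ p τ : ℕ, p.Prime → (p - 1) * p ^ τ ∣ k → p ^ (τ + 1) ≤ d) ∧
    (∀ τ : ℕ, 1 ≤ τ → 2 ^ τ ∣ k → 2 ^ (τ + 2) ≤ d) := by
  obtain ⟨c, C, r₀, hc, _, h⟩ := h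
  have h' : Pool.Agent.TH854.KS.Holds k d := ⟨c, C, r₀, hc, h⟩
  have h1 : k + 2 ≤ d := by
    by_contra hcon
    exact Pool.Agent.TH854.KS.fails_low hk hd (by omega) h'
  exact ⟨fun p γ hp => Pool.Agent.TH854.KS.primitive_of_holds hk (by omega) h' hp γ,
    fun p τ hp hdv => Pool.Agent.TH854.KS.bound_odd hk (by omega) h' hp hdv,
    fun τ hτ hdv => Pool.Agent.TH854.KS.bound_two hk (by omega) h' hτ hdv⟩

end Pool.Agent.Results.MP_927be3_nt.LocalThresholds
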